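import Pool.Agent.H14R2.LL.Defs
import Pool.Agent.H852R2.TE.S.CNTE
import Pool.Agent.H120R2.RC.CHAR

namespace LL14
open RC14 RC852 TE852 Finset Equiv

theorem RTEHx.rp (x z : ℝ) (hx : 0 ≤ x) (hz : 0 ≤ z) (k j : ℕ) (hk : 1 ≤ k) (h : x ≤ z ^ k) :
    x ^ ((j : ℝ) / (k : ℝ)) ≤ z ^ j := by
  have hk0 : (0 : ℝ) < k := by exact_mod_cast hk
  calc x ^ ((j : ℝ) / (k : ℝ)) ≤ (z ^ k) ^ ((j : ℝ) / (k : ℝ)) :=
        Real.rpow_le_rpow hx h (by positivity)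
    _ = z ^ j := by
        rw [← Real.rpow_natCast z k, ← Real.rpow_mul hz, mul_div_cancel₀ _ hk0.ne',
          Real.rpow_natCast]

/-- character bound on the levels `j ≤ n / G^248` -/
theorem RTEH : ∃ G0 : ℕ, ∀ G : ℕ, G0 ≤ G → ∀ n j : ℕ, 1 ≤ j → j * G ^ 248 ≤ n →
    ∀ (W : Submodule ℂ (V j n)) (hW : Inv (repA j n) W), W ≤ Lvl j n →
    ∀ g : Alt n, nfix (g : Perm (Fin n)) ≤ 2 * FH G n →
      ‖rchr (repA j n) W hW g‖ ≤ (1 / (G : ℝ)) ^ j * Module.finrank ℂ W := by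
  refine ⟨12, fun G hG n j hj1 hj W hW hL g hg => ?_⟩
  have hG12 : (12 : ℝ) ≤ G := by exact_mod_cast hG
  have hG0 : (0 : ℝ) < G := by linarith
  set x : ℝ := 1 / (G : ℝ) with hx
  have hx0 : 0 < x := by positivity
  have hx1 : x ≤ 1 / 12 := by
    rw [hx]
    exact one_div_le_one_div_of_le (by norm_num) hG12
  have hGx : (G : ℝ) * x = 1 := by rw [hx]; field_simp
  have hpowx : ∀ k : ℕ, (G : ℝ) ^ k * x ^ k = 1 := fun k => by rw [← mul_pow, hGx, one_pow]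
  have hjr : (j : ℝ) * (G : ℝ) ^ 248 ≤ n := by exact_mod_cast hj
  set N : ℝ := (n : ℝ) with hNdef
  have hj1' : (1 : ℝ) ≤ j := by exact_mod_cast hj1
  have hjx : (j : ℝ) ≤ N * x ^ 248 := by
    calc (j : ℝ) = (j * (G : ℝ) ^ 248) * x ^ 248 := by
          rw [mul_assoc, hpowx, mul_one]
      _ ≤ N * x ^ 248 := mul_le_mul_of_nonneg_right hjr (by positivity)
  have hN8 : 1 ≤ N * x ^ 8 := by
    have h1 : x ^ 248 ≤ x ^ 8 := pow_le_pow_of_le_one hx0.le (by linarith) (by norm_num)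
    have hNn : 0 ≤ N := by rw [hNdef]; positivity
    calc (1 : ℝ) ≤ j := hj1'
      _ ≤ N * x ^ 248 := hjx
      _ ≤ N * x ^ 8 := mul_le_mul_of_nonneg_left h1 hNn
  have hNn : 0 ≤ N := by rw [hNdef]; positivity
  have hx248 : x ^ 248 ≤ 1 / 12 := by
    calc x ^ 248 ≤ x ^ 1 := pow_le_pow_of_le_one hx0.le (by linarith) (by norm_num)
      _ ≤ 1 / 12 := by simpa using hx1
  have hx8 : x ^ 8 ≤ 1 / 144 := by
    calc x ^ 8 ≤ x ^ 2 := pow_le_pow_of_le_one hx0.le (by linarith) (by norm_num)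
      _ ≤ (1 / 12) ^ 2 := pow_le_pow_left₀ hx0.le hx1 2
      _ = 1 / 144 := by norm_num
  have hjN : (j : ℝ) ≤ N / 12 := by nlinarith
  have hN12 : (144 : ℝ) ≤ N := by
    have h2 : N * x ^ 8 ≤ N * (1 / 144) := mul_le_mul_of_nonneg_left hx8 hNn
    linarith
  have hN0 : (0 : ℝ) < N := by linarith
  have hjn : j ≤ n := by
    have : (j : ℝ) ≤ n := by linarith
    exact_mod_cast this
  have hj22 : 2 * j + 2 ≤ n := by
    have : (2 * (j : ℝ) + 2) ≤ n := by linarith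
    exact_mod_cast this
  have hDc : ((n - j : ℕ) : ℝ) = N - j := by rw [Nat.cast_sub hjn]
  have hD : N / 2 ≤ ((n - j : ℕ) : ℝ) := by rw [hDc]; linarith
  have hD0 : (0 : ℝ) < ((n - j : ℕ) : ℝ) := by linarith
  have hFE : ((2 * FH G n : ℕ) : ℝ) ≤ 4 * (N * x ^ 8) := by
    have h1 : ((n / G ^ 8 : ℕ) : ℝ) ≤ N * x ^ 8 := by
      have h2 : ((n / G ^ 8 : ℕ) : ℝ) ≤ (n : ℝ) / ((G ^ 8 : ℕ) : ℝ) := Nat.cast_div_le
      have h3 : (n : ℝ) / ((G ^ 8 : ℕ) : ℝ) = N * x ^ 8 := by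
        rw [hx, hNdef]
        push_cast
        rw [one_div, inv_pow]
        rfl
      rwa [h3] at h2
    unfold FH
    push_cast
    linarith
  have hFn : 2 * FH G n ≤ n - j := by
    have : ((2 * FH G n : ℕ) : ℝ) ≤ ((n - j : ℕ) : ℝ) := by
      refine hFE.trans ?_
      rw [hDc]
      nlinarith
    exact_mod_cast this
  have hjD : (j : ℝ) / ((n - j : ℕ) : ℝ) ≤ 2 * x ^ 248 := by
    rw [div_le_iff₀ hD0]
    have : 2 * x ^ 248 * (N / 2) ≤ 2 * x ^ 248 * ((n - j : ℕ) : ℝ) :=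
      mul_le_mul_of_nonneg_left hD (by positivity)
    linarith
  have hFD : ((2 * FH G n : ℕ) : ℝ) / ((n - j : ℕ) : ℝ) ≤ 8 * x ^ 8 := by
    rw [div_le_iff₀ hD0]
    have : 8 * x ^ 8 * (N / 2) ≤ 8 * x ^ 8 * ((n - j : ℕ) : ℝ) :=
      mul_le_mul_of_nonneg_left hD (by positivity)
    linarith
  have hjD0 : 0 ≤ (j : ℝ) / ((n - j : ℕ) : ℝ) := by positivity
  have hFD0 : 0 ≤ ((2 * FH G n : ℕ) : ℝ) / ((n - j : ℕ) : ℝ) := by positivity
  have hz0 : 0 ≤ x / 6 := by positivity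
  -- powers
  have p248 : 2 * x ^ 248 ≤ (x / 6) ^ 12 := by
    have h1 : x ^ 248 ≤ x ^ 32 := pow_le_pow_of_le_one hx0.le (by linarith) (by norm_num)
    have h2 : x ^ 20 ≤ (1 / 12) ^ 20 := pow_le_pow_left₀ hx0.le hx1 20
    have h3 : x ^ 32 = x ^ 12 * x ^ 20 := by ring
    have h4 : (x / 6) ^ 12 = x ^ 12 * (1 / 6) ^ 12 := by rw [div_eq_mul_one_div, mul_pow]
    rw [h4]
    calc 2 * x ^ 248 ≤ 2 * (x ^ 12 * x ^ 20) := by rw [← h3]; linarith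
      _ = x ^ 12 * (2 * x ^ 20) := by ring
      _ ≤ x ^ 12 * (1 / 6) ^ 12 := by
          apply mul_le_mul_of_nonneg_left _ (by positivity)
          calc 2 * x ^ 20 ≤ 2 * (1 / 12) ^ 20 := by linarith
            _ ≤ (1 / 6) ^ 12 := by norm_num
  have p8 : 8 * x ^ 8 ≤ (x / 6) ^ 4 := by
    have h2 : x ^ 4 ≤ (1 / 12) ^ 4 := pow_le_pow_left₀ hx0.le hx1 4
    have h4 : (x / 6) ^ 4 = x ^ 4 * (1 / 6) ^ 4 := by rw [div_eq_mul_one_div, mul_pow]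
    rw [h4]
    calc 8 * x ^ 8 = x ^ 4 * (8 * x ^ 4) := by ring
      _ ≤ x ^ 4 * (1 / 6) ^ 4 := by
          apply mul_le_mul_of_nonneg_left _ (by positivity)
          calc 8 * x ^ 4 ≤ 8 * (1 / 12) ^ 4 := by linarith
            _ ≤ (1 / 6) ^ 4 := by norm_num
  have t1 : ((j : ℝ) / ((n - j : ℕ) : ℝ)) ^ ((j : ℝ) / 2) ≤ (x / 6) ^ j := by
    have := RTEHx.rp _ (x / 6) hjD0 hz0 2 j (by norm_num) ((hjD.trans p248).trans ?_)
    · simpa using this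
    · exact pow_le_pow_of_le_one hz0 (by linarith) (by norm_num)
  have t2 : (((2 * FH G n : ℕ) : ℝ) / ((n - j : ℕ) : ℝ)) ^ ((j : ℝ) / 4) ≤ (x / 6) ^ j := by
    have := RTEHx.rp _ (x / 6) hFD0 hz0 4 j (by norm_num) (hFD.trans p8)
    simpa using this
  have t3 : ((j : ℝ) / ((n - j : ℕ) : ℝ)) ^ ((j : ℝ) / 12) ≤ (x / 6) ^ j := by
    have := RTEHx.rp _ (x / 6) hjD0 hz0 12 j (by norm_num) (hjD.trans p248)
    simpa using this
  have a := CH1 j n hj22 W hW hL g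
  have b := CNTE j n (2 * FH G n) hj1 hj22 hFn (g : Perm (Fin n)) hg
  have hX : (0 : ℝ) < Fintype.card (Tup j n) := by exact_mod_cast card_Tup_pos (by omega)
  have hd : (0 : ℝ) ≤ Module.finrank ℂ W := by positivity
  have key : ((j : ℝ) / ((n - j : ℕ) : ℝ)) ^ ((j : ℝ) / 2) +
          2 ^ j * (((2 * FH G n : ℕ) : ℝ) / ((n - j : ℕ) : ℝ)) ^ ((j : ℝ) / 4) +
          2 ^ j * ((j : ℝ) / ((n - j : ℕ) : ℝ)) ^ ((j : ℝ) / 12) ≤ x ^ j := by
    have h2j : (1 : ℝ) ≤ 2 ^ j := one_le_pow₀ (by norm_num)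
    have hpos : 0 ≤ (x / 6) ^ j := by positivity
    have h3 : (3 : ℝ) ≤ 3 ^ j := by
      calc (3 : ℝ) = 3 ^ 1 := by norm_num
        _ ≤ 3 ^ j := pow_le_pow_right₀ (by norm_num) hj1
    calc _ ≤ 2 ^ j * (x / 6) ^ j + 2 ^ j * (x / 6) ^ j + 2 ^ j * (x / 6) ^ j := by
          have u1 : (x / 6) ^ j ≤ 2 ^ j * (x / 6) ^ j := le_mul_of_one_le_left hpos h2j
          have u2 := mul_le_mul_of_nonneg_left t2 (by positivity : (0 : ℝ) ≤ 2 ^ j)
          have u3 := mul_le_mul_of_nonneg_left t3 (by positivity : (0 : ℝ) ≤ 2 ^ j)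
          linarith
      _ = 3 * (2 ^ j * (x / 6) ^ j) := by ring
      _ ≤ 3 ^ j * (2 ^ j * (x / 6) ^ j) := mul_le_mul_of_nonneg_right h3 (by positivity)
      _ = x ^ j := by
          rw [← mul_pow, ← mul_pow]; congr 1; ring
  have c : ‖rchr (repA j n) W hW g‖ * Fintype.card (Tup j n) ≤
      (x ^ j * Module.finrank ℂ W) * Fintype.card (Tup j n) := by
    refine a.trans ?_
    refine (mul_le_mul_of_nonneg_left (b.trans (mul_le_mul_of_nonneg_left key hX.le)) hd).trans ?_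
    apply le_of_eq
    ring
  exact le_of_mul_le_mul_right c hX

end LL14
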